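import Mathlib
import Pool.Agent.H943.DP.AppB

/-!
# Lie algebras whose double commutant is a division algebra on a part of the space
-/

set_option autoImplicit false
set_option linter.unusedSectionVars false

namespace Pool.Agent.H943.MO

open Module Polynomial Pool.Agent.H943

noncomputable section

variable {K V : Type} [Field K] [AddCommGroup V] [Module K V] [FiniteDimensional K V]

/-- Projectors onto the subspaces which are stable under an algebra in which all nonzero elements are
injective. -/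
theorem exists_proj {W : Type} [AddCommGroup W] [Module K W] [FiniteDimensional K W] [Nontrivial W]
    (A : Subalgebra K (Module.End K W)) (hA : ∀ a ∈ A, a ≠ 0 → Function.Injective a)
    (U : Submodule K W) (hU : ∀ a ∈ A, ∀ u ∈ U, a u ∈ U) :
    ∃ π : W →ₗ[K] W, (∀ a ∈ A, ∀ w, π (a w) = a (π w)) ∧ (∀ w, π w ∈ U) ∧ ∀ u ∈ U, π u = u := by
  have hdom : IsDomain A := by
    have hnt : Nontrivial A := inferInstance
    have hnz : NoZeroDivisors A := ⟨by
      intro a b hab
      by_contra hcon
      push Not at hcon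
      obtain ⟨w, hw⟩ : ∃ w, (b : Module.End K W) w ≠ 0 := by
        by_contra h0
        push Not at h0
        exact hcon.2 (Subtype.ext (LinearMap.ext h0))
      have h1 := hA a a.2 (fun h0 => hcon.1 (Subtype.ext h0))
      have h2 : (a : Module.End K W) ((b : Module.End K W) w) = 0 := by
        have h3 := congrArg (fun x : A => (x : Module.End K W) w) hab
        exact h3
      exact hw (h1 (by rw [h2, map_zero]))⟩
    exact NoZeroDivisors.to_isDomain A
  let _ : DivisionRing A := divisionRingOfFiniteDimensional K A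
  let U' : Submodule A W :=
    { carrier := U
      add_mem' := fun ha hb => U.add_mem ha hb
      zero_mem' := U.zero_mem
      smul_mem' := fun a u hu => hU a a.2 u hu }
  obtain ⟨Q, hQ⟩ := U'.exists_isCompl
  let f : W →ₗ[A] U' := Submodule.projectionOnto U' Q hQ
  refine ⟨{ toFun := fun w => (f w : W)
            map_add' := fun a b => by rw [map_add]; rfl
            map_smul' := fun c w => by
              have h1 := f.map_smul (algebraMap K A c) w
              exact congrArg Subtype.val h1 }, fun a ha w => ?_, fun w => (f w).2, fun u hu => ?_⟩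
  · have h1 := f.map_smul (⟨a, ha⟩ : A) w
    exact congrArg Subtype.val h1
  · have h1 : f ((⟨u, hu⟩ : U') : W) = ⟨u, hu⟩ := Submodule.projectionOnto_apply_left hQ _
    exact congrArg Subtype.val h1

/-- `X` belongs to the double commutant of `G`. -/
def InAlg (G : Submodule K (Module.End K V)) (X : Module.End K V) : Prop :=
  ∀ Y, (∀ X' ∈ G, X' * Y = Y * X') → X * Y = Y * X

theorem InAlg.of_mem {G : Submodule K (Module.End K V)} {X : Module.End K V} (hX : X ∈ G) :
    InAlg G X := fun _ hY => hY X hX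

/-- the double commutant -/
def DC (G : Submodule K (Module.End K V)) : Subalgebra K (Module.End K V) where
  carrier := {X | InAlg G X}
  mul_mem' := fun {a b} ha hb Y hY => by rw [mul_assoc, hb Y hY, ← mul_assoc, ha Y hY, mul_assoc]
  add_mem' := fun {a b} ha hb Y hY => by rw [add_mul, mul_add, ha Y hY, hb Y hY]
  algebraMap_mem' := fun c Y _ => Algebra.commutes c Y

theorem mem_DC {G : Submodule K (Module.End K V)} {X : Module.End K V} : X ∈ DC G ↔ InAlg G X :=
  Iff.rfl

/-- The double commutant of `G` is a central division algebra of degree and exponent `q` on the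
image of the idempotent `e`. -/
structure DivE (G : Submodule K (Module.End K V)) (e : Module.End K V) (q : ℕ) : Prop where
  idem : e * e = e
  ne : e ≠ 0
  comm : ∀ X ∈ G, X * e = e * X
  mem : InAlg G e
  centre : ∀ X, InAlg G X → (∀ Y ∈ G, Y * X = X * Y) → ∃ c : K, X * e = c • e
  div : ∀ X, InAlg G X → X * e ≠ 0 → ∀ v, X (e v) = 0 → e v = 0
  deg : Set.finrank K {Y | ∃ X, InAlg G X ∧ Y = X * e} = q ^ 2
  pp : IsPrimePow q
  exp : ∀ N r : ℕ, 0 < N → 0 < r → r ≤ q ^ N →
    ∀ φ : Fin N → (Module.End K V → Matrix (Fin r) (Fin r) K),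
    (∀ i, DP.IsRp (DC G : Set (Module.End K V)) e (φ i)) →
    (∀ i j, i ≠ j → ∀ X ∈ DC G, ∀ Y ∈ DC G, φ i X * φ j Y = φ j Y * φ i X) →
    (∀ i j, φ i e = φ j e) → q ∣ N

section dens

variable {G : Submodule K (Module.End K V)} {e : Module.End K V} {q : ℕ} (hD : DivE G e q)
  {L : Submodule K (Module.End K V)} (hLG : L ≤ G)
  (hcomm : ∀ Y, (∀ X ∈ L, X * Y = Y * X) → ∀ X ∈ G, X * Y = Y * X)

include hD in
theorem comm_e {X : Module.End K V} (hX : InAlg G X) : X * e = e * X := hX e hD.comm

include hLG in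
theorem adj_alg {c : Module.End K V} (hc : c ∈ Algebra.adjoin K (L : Set (Module.End K V))) :
    InAlg G c := by
  have h1 : Algebra.adjoin K (L : Set (Module.End K V)) ≤ DC G :=
    Algebra.adjoin_le fun X hX => InAlg.of_mem (hLG hX)
  exact h1 hc

include hD hLG hcomm

/-- **Density.** -/
theorem dens {X : Module.End K V} (hX : InAlg G X) :
    ∃ c ∈ Algebra.adjoin K (L : Set (Module.End K V)), X * e = c * e := by
  obtain ⟨v₀, hv₀⟩ : ∃ v₀, e v₀ ≠ 0 := by
    by_contra hcon
    push Not at hcon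
    exact hD.ne (LinearMap.ext hcon)
  have hee : ∀ v, e (e v) = e v := fun v => LinearMap.congr_fun hD.idem v
  have hce : ∀ c, InAlg G c → ∀ v, c (e v) = e (c v) := fun c hc v =>
    LinearMap.congr_fun (comm_e hD hc) v
  obtain ⟨W, hW⟩ : ∃ W : Submodule K V, W = LinearMap.range e := ⟨_, rfl⟩
  have hWe : ∀ w ∈ W, e w = w := by
    intro w hw
    rw [hW] at hw
    obtain ⟨v, rfl⟩ := hw
    exact hee v
  have heW : ∀ v, e v ∈ W := fun v => by
    rw [hW]
    exact ⟨v, rfl⟩
  have hnt : Nontrivial W := ⟨⟨⟨e v₀, heW v₀⟩, 0, fun h0 => hv₀ (congrArg Subtype.val h0)⟩⟩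
  have hst : ∀ c, InAlg G c → ∀ w ∈ W, c w ∈ W := by
    intro c hc w hw
    rw [← hWe w hw, hce c hc]
    exact heW _
  obtain ⟨Ad, hAd⟩ : ∃ Ad : Subalgebra K (Module.End K V),
    Ad = Algebra.adjoin K (L : Set (Module.End K V)) := ⟨_, rfl⟩
  have hAdG : ∀ c ∈ Ad, InAlg G c := fun c hc => adj_alg hLG (by rw [← hAd]; exact hc)
  let A : Subalgebra K (Module.End K W) :=
    { carrier := {a | ∃ c ∈ Ad, ∀ w : W, (a w : V) = c w}
      mul_mem' := by
        rintro a b ⟨c, hc, hac⟩ ⟨d, hd, hbd⟩
        refine ⟨c * d, Ad.mul_mem hc hd, fun w => ?_⟩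
        rw [Module.End.mul_apply, hac, hbd]
        rfl
      add_mem' := by
        rintro a b ⟨c, hc, hac⟩ ⟨d, hd, hbd⟩
        refine ⟨c + d, Ad.add_mem hc hd, fun w => ?_⟩
        rw [LinearMap.add_apply, Submodule.coe_add, hac, hbd]
        rfl
      algebraMap_mem' := fun r => ⟨algebraMap K _ r, Ad.algebraMap_mem r, fun w => rfl⟩ }
  have hA : ∀ a ∈ A, a ≠ 0 → Function.Injective a := by
    rintro a ⟨c, hc, hac⟩ ha
    rw [injective_iff_map_eq_zero]
    intro w hw
    have h1 : c * e ≠ 0 := by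
      intro h0
      apply ha
      refine LinearMap.ext fun w' => Subtype.ext ?_
      rw [hac, ← hWe w' w'.2]
      exact LinearMap.congr_fun h0 (w' : V)
    have h2 := hD.div c (hAdG c hc) h1 w (by
      rw [hWe w w.2, ← hac, hw]
      rfl)
    rw [hWe w w.2] at h2
    exact Subtype.ext h2
  let U : Submodule K W :=
    { carrier := {w | ∃ c ∈ Ad, (w : V) = c (e v₀)}
      add_mem' := by
        rintro a b ⟨c, hc, hac⟩ ⟨d, hd, hbd⟩
        refine ⟨c + d, Ad.add_mem hc hd, ?_⟩
        rw [Submodule.coe_add, hac, hbd]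
        rfl
      zero_mem' := ⟨0, Ad.zero_mem, rfl⟩
      smul_mem' := by
        rintro r a ⟨c, hc, hac⟩
        refine ⟨r • c, Ad.smul_mem hc r, ?_⟩
        rw [Submodule.coe_smul, hac]
        rfl }
  obtain ⟨π, h1, h2, h3⟩ := exists_proj A hA U (by
    rintro a ⟨c, hc, hac⟩ u ⟨d, hd, hud⟩
    refine ⟨c * d, Ad.mul_mem hc hd, ?_⟩
    rw [hac, hud]
    rfl)
  let ε : V →ₗ[K] W := e.codRestrict W heW
  let P0 : Module.End K V := W.subtype ∘ₗ π ∘ₗ ε
  have hP0 : ∀ v, P0 v = (π (ε v) : V) := fun v => rfl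
  have hP0L : ∀ X ∈ L, X * P0 = P0 * X := by
    intro X hX
    have hXA : X ∈ Ad := by
      rw [hAd]
      exact Algebra.subset_adjoin hX
    have hXG := hAdG X hXA
    let a : Module.End K W := X.restrict (hst X hXG)
    have ha : a ∈ A := ⟨X, hXA, fun w => rfl⟩
    refine LinearMap.ext fun v => ?_
    rw [Module.End.mul_apply, Module.End.mul_apply, hP0, hP0]
    have h4 : ε (X v) = a (ε v) := Subtype.ext (hce X hXG v).symm
    rw [h4, h1 a ha]
    rfl
  have h4 : X * P0 = P0 * X := hX P0 (hcomm P0 hP0L)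
  have h5 : P0 (e v₀) = e v₀ := by
    rw [hP0]
    have h6 : ε (e v₀) = ⟨e v₀, heW v₀⟩ := Subtype.ext (hee v₀)
    rw [h6, h3 _ ⟨1, Ad.one_mem, rfl⟩]
  have h6 : X (e v₀) = P0 (X (e v₀)) := by
    have h7 := LinearMap.congr_fun h4 (e v₀)
    rw [Module.End.mul_apply, Module.End.mul_apply, h5] at h7
    exact h7
  obtain ⟨c, hc, hcv⟩ := h2 (ε (X (e v₀)))
  rw [hP0, hcv] at h6
  refine ⟨c, by rw [← hAd]; exact hc, ?_⟩
  by_contra hne
  have h7 : InAlg G (X - c) := (DC G).sub_mem hX (hAdG c hc)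
  refine hv₀ (hD.div (X - c) h7 (fun h0 => hne ?_) v₀ ?_)
  · rwa [sub_mul, sub_eq_zero] at h0
  · rw [LinearMap.sub_apply, h6, sub_self]

end dens

end

end Pool.Agent.H943.MO
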