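import Mathlib
import Pool.Agent.H943.MO.Dens

/-!
# Commutators of Lie algebras of division type
-/

set_option autoImplicit false
set_option linter.unusedSectionVars false

namespace Pool.Agent.H943.MO

open Module Polynomial Pool.Agent.H943

noncomputable section

variable {K V : Type} [Field K] [CharZero K] [AddCommGroup V] [Module K V] [FiniteDimensional K V]
  {G : Submodule K (Module.End K V)} {e : Module.End K V} {q : ℕ} (hD : DivE G e q)
  {L : Submodule K (Module.End K V)} (hLG : L ≤ G)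
  (hbr : ∀ X ∈ L, ∀ Y ∈ L, X * Y - Y * X ∈ L)
  (hcomm : ∀ Y, (∀ X ∈ L, X * Y = Y * X) → ∀ X ∈ G, X * Y = Y * X)

/-- polynomials in an idempotent -/
theorem aeval_idem {e : Module.End K V} (he : e * e = e) (f : K[X]) :
    aeval e f * e = (f.eval 1) • e := by
  induction f using Polynomial.induction_on with
  | C c => rw [aeval_C, eval_C, Algebra.algebraMap_eq_smul_one, smul_mul_assoc, one_mul]
  | add p q hp hq => rw [map_add, add_mul, hp, hq, eval_add, add_smul]
  | monomial n c hn =>
    rw [pow_succ, ← mul_assoc, map_mul, aeval_X, mul_assoc, he, hn, eval_mul, eval_mul, eval_X]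
    simp

omit [CharZero K] in
/-- the dimension of the restrictions of the elements of the double commutant -/
theorem finrank_DC (hD : DivE G e q) :
    finrank K ((DC G).toSubmodule.map (LinearMap.mulRight K e)) = q ^ 2 := by
  rw [← hD.deg, Set.finrank]
  have h1 : Submodule.span K {Y | ∃ X, InAlg G X ∧ Y = X * e} =
      (DC G).toSubmodule.map (LinearMap.mulRight K e) := by
    refine le_antisymm ?_ ?_
    · rw [Submodule.span_le]
      rintro _ ⟨X, hX, rfl⟩
      exact ⟨X, hX, rfl⟩
    · rintro _ ⟨X, hX, rfl⟩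
      exact Submodule.subset_span ⟨X, hX, rfl⟩
  rw [h1]

include hD in
/-- **The commutators of all elements of the double commutant are given by elements of each Lie
algebra `P` which generates it.** -/
theorem bracket_gen {P : Submodule K (Module.End K V)} (hPG : ∀ X ∈ P, InAlg G X)
    (hbr : ∀ X ∈ P, ∀ Y ∈ P, X * Y - Y * X ∈ P)
    (hdens : ∀ X, InAlg G X → ∃ c ∈ Algebra.adjoin K (P : Set (Module.End K V)), X * e = c * e)
    {X Y : Module.End K V} (hX : InAlg G X) (hY : InAlg G Y) :
    ∃ A ∈ P, (X * Y - Y * X) * e = A * e := by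
  have hce : ∀ c, InAlg G c → c * e = e * c := fun c hc => comm_e hD hc
  have hadj : ∀ c ∈ Algebra.adjoin K (P : Set (Module.End K V)), InAlg G c := fun c hc =>
    (Algebra.adjoin_le (S := DC G) fun X hX => hPG X hX) hc
  let 𝔮 : Submodule K (Module.End K V) :=
    { carrier := {X | InAlg G X ∧ ∃ A ∈ P, X * e = A * e}
      add_mem' := by
        rintro a b ⟨ha, A, hA, hA'⟩ ⟨hb, B, hB, hB'⟩
        exact ⟨(DC G).add_mem ha hb, A + B, P.add_mem hA hB, by rw [add_mul, add_mul, hA', hB']⟩
      zero_mem' := ⟨(DC G).zero_mem, 0, P.zero_mem, rfl⟩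
      smul_mem' := by
        rintro c a ⟨ha, A, hA, hA'⟩
        exact ⟨(DC G).smul_mem ha c, c • A, P.smul_mem c hA, by
          rw [smul_mul_assoc, smul_mul_assoc, hA']⟩ }
  have hLq : ∀ A ∈ P, A ∈ 𝔮 := fun A hA => ⟨hPG A hA, A, hA, rfl⟩
  have hgen : ∀ X ∈ DC G, X ∈ Algebra.adjoin K (𝔮 : Set (Module.End K V)) := by
    intro X hX
    obtain ⟨c, hc, hXc⟩ := hdens X hX
    have h1 : c ∈ Algebra.adjoin K (𝔮 : Set (Module.End K V)) :=
      Algebra.adjoin_mono (fun A hA => hLq A hA) hc
    have h2 : X - c ∈ 𝔮 := ⟨(DC G).sub_mem hX (hadj c hc), 0, P.zero_mem, by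
      rw [sub_mul, hXc, sub_self, zero_mul]⟩
    have h3 := (Algebra.adjoin K (𝔮 : Set (Module.End K V))).add_mem h1
      (Algebra.subset_adjoin h2)
    rwa [add_sub_cancel] at h3
  have hrk1 : finrank K ((Algebra.adjoin K {e}).toSubmodule.map (LinearMap.mulRight K e)) = 1 := by
    have h1 : (Algebra.adjoin K {e}).toSubmodule.map (LinearMap.mulRight K e) =
        Submodule.span K {e} := by
      refine le_antisymm ?_ ?_
      · rintro _ ⟨x, hx, rfl⟩
        rw [SetLike.mem_coe, Subalgebra.mem_toSubmodule, Algebra.adjoin_singleton_eq_range_aeval] at hx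
        obtain ⟨f, rfl⟩ := hx
        rw [LinearMap.mulRight_apply]
        have h2 := aeval_idem hD.idem f
        exact Submodule.mem_span_singleton.2 ⟨f.eval 1, h2.symm⟩
      · rw [Submodule.span_singleton_le_iff_mem]
        exact ⟨1, (Algebra.adjoin K {e}).one_mem, by rw [LinearMap.mulRight_apply, one_mul]⟩
    rw [h1, finrank_span_singleton hD.ne]
  have hrk2 := finrank_DC hD
  have hmain := DP.rat_part_q (DC G) e hD.mem (fun X hX => hce X hX)
    (by rw [hD.idem]; exact hD.ne) (fun X hX h0 v hv => hD.div X hX h0 v hv) hD.pp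
    (by rw [hrk1, hrk2, mul_one]) (fun X hX hcen => ?_) (fun N r hN hr hrN φ h1 h2 h3 => ?_) 𝔮
    (fun X hX => hX.1) (fun X hX Y hY => ?_) hgen hX hY
  · obtain ⟨W, hW, hXY⟩ := hmain
    have h1 : Submodule.span K {T | ∃ (q : K[X]) (s : Module.End K V), s ∈ 𝔮 ∧
        T = aeval e q * s} ≤ 𝔮 := by
      rw [Submodule.span_le]
      rintro _ ⟨f, s, ⟨hs, A, hA, hsA⟩, rfl⟩
      have hfe : aeval e f ∈ DC G := by
        have h2 := (aeval (⟨e, hD.mem⟩ : DC G) f).2
        rwa [aeval_subalgebra_coe] at h2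
      refine ⟨(DC G).mul_mem hfe hs, f.eval 1 • A, P.smul_mem _ hA, ?_⟩
      rw [mul_assoc, hce s hs, ← mul_assoc, aeval_idem hD.idem, smul_mul_assoc, ← hce s hs, hsA,
        smul_mul_assoc]
    obtain ⟨-, A, hA, hWA⟩ := h1 hW
    exact ⟨A, hA, by rw [hXY, hWA]⟩
  · -- the centre
    have hXe : InAlg G (X * e) := (DC G).mul_mem hX hD.mem
    obtain ⟨c, hc⟩ := hD.centre (X * e) hXe (fun Y hY => by
      have hYD : InAlg G Y := InAlg.of_mem hY
      have h2 := hcen Y hYD
      rw [sub_mul, sub_eq_zero] at h2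
      rw [← mul_assoc, ← h2, mul_assoc, hce Y hYD, mul_assoc])
    refine ⟨Polynomial.C c, ?_⟩
    rw [hc, aeval_C, Algebra.algebraMap_eq_smul_one, smul_mul_assoc, one_mul]
  · exact hD.exp N r hN hr (by rwa [hrk1, mul_one] at hrN) φ h1 h2 h3
  · -- commutators
    obtain ⟨hX0, A, hA, hXA⟩ := hX
    obtain ⟨hY0, B, hB, hYB⟩ := hY
    have hA0 : InAlg G A := hPG A hA
    have hB0 : InAlg G B := hPG B hB
    refine ⟨(DC G).sub_mem ((DC G).mul_mem hX0 hY0) ((DC G).mul_mem hY0 hX0), A * B - B * A,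
      hbr A hA B hB, ?_⟩
    have h1 : X * Y * e = A * B * e := by
      rw [mul_assoc, hYB, hce B hB0, ← mul_assoc, hXA, mul_assoc, ← hce B hB0, mul_assoc]
    have h2 : Y * X * e = B * A * e := by
      rw [mul_assoc, hXA, hce A hA0, ← mul_assoc, hYB, mul_assoc, ← hce A hA0, mul_assoc]
    rw [sub_mul, sub_mul, h1, h2]

include hD hLG hbr hcomm

/-- **The commutators of all elements of the double commutant are given by elements of `L`.** -/
theorem bracket_mem {X Y : Module.End K V} (hX : InAlg G X) (hY : InAlg G Y) :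
    ∃ A ∈ L, (X * Y - Y * X) * e = A * e :=
  bracket_gen hD (fun _ hX => InAlg.of_mem (hLG hX)) hbr (fun _ hX => dens hD hLG hcomm hX) hX hY

end

end Pool.Agent.H943.MO
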