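import Mathlib
import Pool.Agent.H943.MO.Brk

/-!
# Traces and subalgebras of division algebras
-/

set_option autoImplicit false
set_option linter.unusedSectionVars false

namespace Pool.Agent.H943.MO

open Module Polynomial Pool.Agent.H943

noncomputable section

variable {K V : Type} [Field K] [CharZero K] [AddCommGroup V] [Module K V] [FiniteDimensional K V]
  {G : Submodule K (Module.End K V)} {e : Module.End K V} {q : ℕ} (hD : DivE G e q)

/-- The commutators of the double commutant, restricted to the image of `e`. -/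
def Dr (G : Submodule K (Module.End K V)) (e : Module.End K V) : Submodule K (Module.End K V) :=
  Submodule.span K {Z | ∃ X Y, InAlg G X ∧ InAlg G Y ∧ Z = (X * Y - Y * X) * e}

theorem Dr_mem {X Y : Module.End K V} (hX : InAlg G X) (hY : InAlg G Y) :
    (X * Y - Y * X) * e ∈ Dr G e := Submodule.subset_span ⟨X, Y, hX, hY, rfl⟩

include hD

theorem Dr_alg {s : Module.End K V} (hs : s ∈ Dr G e) : InAlg G s := by
  have h1 : Dr G e ≤ (DC G).toSubmodule := by
    unfold Dr
    rw [Submodule.span_le]
    rintro _ ⟨X, Y, hX, hY, rfl⟩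
    exact (DC G).mul_mem ((DC G).sub_mem ((DC G).mul_mem hX hY) ((DC G).mul_mem hY hX)) hD.mem
  exact h1 hs

theorem Dr_e {s : Module.End K V} (hs : s ∈ Dr G e) : s * e = s := by
  unfold Dr at hs
  induction hs using Submodule.span_induction with
  | mem s hs =>
    obtain ⟨X, Y, -, -, rfl⟩ := hs
    rw [mul_assoc, hD.idem]
  | zero => rw [zero_mul]
  | add x y _ _ hx hy => rw [add_mul, hx, hy]
  | smul c x _ hx => rw [smul_mul_assoc, hx]

theorem Dr_trace {s : Module.End K V} (hs : s ∈ Dr G e) : LinearMap.trace K V s = 0 := by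
  unfold Dr at hs
  induction hs using Submodule.span_induction with
  | mem s hs =>
    obtain ⟨X, Y, hX, hY, rfl⟩ := hs
    rw [sub_mul, map_sub, mul_assoc, mul_assoc, comm_e hD hY, ← mul_assoc,
      LinearMap.trace_mul_comm K (X * e) Y, sub_self]
  | zero => rw [map_zero]
  | add x y _ _ hx hy => rw [map_add, hx, hy, add_zero]
  | smul c x _ hx => rw [map_smul, hx, smul_zero]

/-- the trace of `e` -/
theorem trace_e : LinearMap.trace K V e ≠ 0 := by
  have h1 : LinearMap.IsProj (LinearMap.range e) e :=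
    ⟨fun x => ⟨x, rfl⟩, by rintro _ ⟨x, rfl⟩; exact LinearMap.congr_fun hD.idem x⟩
  rw [h1.trace]
  have h2 : finrank K (LinearMap.range e) ≠ 0 := by
    intro h0
    exact hD.ne (LinearMap.range_eq_bot.1 (Submodule.finrank_eq_zero.1 h0))
  exact_mod_cast h2

/-- central elements of the commutators are zero -/
theorem Dr_center {s : Module.End K V} (hs : s ∈ Dr G e) {c : K} (hc : s = c • e) : s = 0 := by
  have h1 := Dr_trace hD hs
  rw [hc, map_smul, smul_eq_mul] at h1
  rcases mul_eq_zero.1 h1 with h2 | h2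
  · rw [hc, h2, zero_smul]
  · exact absurd h2 (trace_e hD)

/-- inverses -/
theorem exists_inv {B : Subalgebra K (Module.End K V)} (hB : B ≤ DC G) {X : Module.End K V}
    (hX : X ∈ B) (hXe : X * e ≠ 0) : ∃ Y ∈ B, X * Y * e = e := by
  let D : Submodule K (Module.End K V) := B.toSubmodule.map (LinearMap.mulRight K e)
  have hXD : ∀ d ∈ D, X * d ∈ D := by
    rintro _ ⟨Y, hY, rfl⟩
    refine ⟨X * Y, B.mul_mem hX hY, ?_⟩
    rw [LinearMap.mulRight_apply, LinearMap.mulRight_apply, mul_assoc]
  have hinj : Function.Injective ((LinearMap.mulLeft K X).restrict hXD) := by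
    rw [injective_iff_map_eq_zero]
    rintro ⟨_, Y, hY, rfl⟩ h0
    have h1 : X * (Y * e) = 0 := congrArg Subtype.val h0
    refine Subtype.ext ?_
    change Y * e = 0
    refine LinearMap.ext fun v => ?_
    have h2 : Y (e v) = e (Y (e v)) := by
      have h3 := LinearMap.congr_fun (comm_e hD (hB hY)) (e v)
      have h4 := LinearMap.congr_fun hD.idem v
      rw [Module.End.mul_apply] at h4
      rw [Module.End.mul_apply, Module.End.mul_apply, h4] at h3
      exact h3
    have h5 := hD.div X (hB hX) hXe (Y (e v)) (by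
      rw [← h2]
      exact LinearMap.congr_fun h1 v)
    rw [← h2] at h5
    exact h5
  have hsurj := LinearMap.injective_iff_surjective.1 hinj
  obtain ⟨⟨_, Y, hY, rfl⟩, h1⟩ := hsurj ⟨e, 1, B.one_mem, by
    rw [LinearMap.mulRight_apply, one_mul]⟩
  have h2 : X * (Y * e) = e := congrArg Subtype.val h1
  exact ⟨Y, hY, by rw [mul_assoc, h2]⟩

/-- **The algebra is the sum of the centre and of the commutators.** -/
theorem exists_center {X : Module.End K V} (hX : InAlg G X) : ∃ c : K, X * e - c • e ∈ Dr G e := by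
  by_contra hcon
  push Not at hcon
  obtain ⟨S, hS⟩ : ∃ S : Submodule K (Module.End K V), S = Dr G e ⊔ Submodule.span K {e} := ⟨_, rfl⟩
  have hXS : X * e ∉ S := by
    intro h0
    rw [hS, Submodule.mem_sup] at h0
    obtain ⟨s, hs, t, ht, h1⟩ := h0
    obtain ⟨c, rfl⟩ := Submodule.mem_span_singleton.1 ht
    exact hcon c (by rw [← h1, add_sub_cancel_right]; exact hs)
  obtain ⟨f, hf0, hf1⟩ := Submodule.exists_le_ker_of_notMem hXS
  -- representation by the trace form
  let D : Submodule K (Module.End K V) := (DC G).toSubmodule.map (LinearMap.mulRight K e)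
  let T : D →ₗ[K] Module.Dual K D :=
    ((LinearMap.mul K (Module.End K V)).compr₂ (LinearMap.trace K V)).compl₁₂ D.subtype D.subtype
  have hT : ∀ a b : D, T a b = LinearMap.trace K V ((a : Module.End K V) * b) := fun a b => rfl
  have hinj : Function.Injective T := by
    rw [injective_iff_map_eq_zero]
    rintro ⟨_, Y, hY, rfl⟩ h0
    refine Subtype.ext ?_
    change Y * e = 0
    by_contra h1
    obtain ⟨Z, hZ, h2⟩ := exists_inv hD le_rfl hY h1
    have h3 := LinearMap.congr_fun h0 ⟨Z * e, Z, hZ, rfl⟩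
    rw [hT] at h3
    change LinearMap.trace K V ((Y * e) * (Z * e)) = 0 at h3
    have h4 : (Y * e) * (Z * e) = e := by
      rw [mul_assoc, ← mul_assoc e Z e, ← comm_e hD hZ, mul_assoc Z, hD.idem, ← mul_assoc, h2]
    rw [h4] at h3
    exact trace_e hD h3
  have hsurj : Function.Surjective T :=
    (LinearMap.injective_iff_surjective_of_finrank_eq_finrank
      (by rw [Subspace.dual_finrank_eq])).1 hinj
  obtain ⟨⟨_, Y, hY, rfl⟩, hYf⟩ := hsurj (f ∘ₗ D.subtype)
  have h1 : ∀ Z, InAlg G Z → LinearMap.trace K V ((Y * e) * (Z * e)) = f (Z * e) := fun Z hZ =>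
    LinearMap.congr_fun hYf ⟨Z * e, Z, hZ, rfl⟩
  have h1' : ∀ Z, InAlg G Z → LinearMap.trace K V (Y * Z * e) = f (Z * e) := by
    intro Z hZ
    rw [← h1 Z hZ, mul_assoc Y e, ← mul_assoc e Z e, ← comm_e hD hZ, mul_assoc Z, hD.idem,
      mul_assoc]
  -- `Y` is central
  have hcen : ∀ Z, InAlg G Z → (Y * Z - Z * Y) * e = 0 := by
    intro Z hZ
    by_contra h0
    have hYZ : InAlg G (Y * Z - Z * Y) :=
      (DC G).sub_mem ((DC G).mul_mem hY hZ) ((DC G).mul_mem hZ hY)
    obtain ⟨W, hW, h2⟩ := exists_inv hD le_rfl hYZ h0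
    have h3 : f ((Z * W - W * Z) * e) = 0 := by
      have h4 : (Z * W - W * Z) * e ∈ S := by
        rw [hS]
        exact Submodule.mem_sup_left (Dr_mem hZ hW)
      exact hf1 h4
    rw [← h1' _ ((DC G).sub_mem ((DC G).mul_mem hZ hW) ((DC G).mul_mem hW hZ))] at h3
    have h5 : LinearMap.trace K V (Y * (Z * W - W * Z) * e) =
        LinearMap.trace K V ((Y * Z - Z * Y) * W * e) := by
      have h6 : LinearMap.trace K V (Y * W * Z * e) = LinearMap.trace K V (Z * Y * W * e) := by
        rw [mul_assoc (Y * W) Z e, comm_e hD hZ, ← mul_assoc,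
          LinearMap.trace_mul_comm K (Y * W * e) Z, ← mul_assoc, ← mul_assoc]
      rw [mul_sub, sub_mul, sub_mul, sub_mul, map_sub, map_sub, ← mul_assoc, ← mul_assoc, h6]
    rw [h5, h2] at h3
    exact trace_e hD h3
  obtain ⟨c, hc⟩ := hD.centre (Y * e) ((DC G).mul_mem hY hD.mem) (fun Z hZ => by
    have hZD : InAlg G Z := InAlg.of_mem hZ
    have h2 := hcen Z hZD
    rw [sub_mul, sub_eq_zero] at h2
    rw [← mul_assoc, ← h2, mul_assoc, comm_e hD hZD, mul_assoc])
  rw [mul_assoc, hD.idem] at hc
  have h2 : f (1 * e) = 0 := by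
    have h3 : (1 : Module.End K V) * e ∈ S := by
      rw [hS, one_mul]
      exact Submodule.mem_sup_right (Submodule.mem_span_singleton_self e)
    exact hf1 h3
  rw [← h1' 1 (DC G).one_mem, mul_one, hc, map_smul, smul_eq_mul] at h2
  rcases mul_eq_zero.1 h2 with h3 | h3
  · apply hf0
    rw [← h1' X hX, mul_assoc, ← mul_assoc]
    have h4 : Y * X * e = 0 := by
      have h5 := hcen X hX
      rw [sub_mul, sub_eq_zero] at h5
      rw [h5, mul_assoc, hc, h3, zero_smul, mul_zero]
    rw [h4, map_zero]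
  · exact trace_e hD h3

end

end Pool.Agent.H943.MO
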