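import Mathlib
import Pool.Agent.H943.MO.Tr

/-!
# Ideals, and several blocks
-/

set_option autoImplicit false
set_option linter.unusedSectionVars false

namespace Pool.Agent.H943.MO

open Module Polynomial Pool.Agent.H943

noncomputable section

variable {K V : Type} [Field K] [CharZero K] [AddCommGroup V] [Module K V] [FiniteDimensional K V]
  {G : Submodule K (Module.End K V)}

section one

variable {e : Module.End K V} {q : ℕ} (hD : DivE G e q)

include hD

/-- **Subalgebras which are stable under commutators with all elements.** -/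
theorem cbh (B : Subalgebra K (Module.End K V)) (hB : B ≤ DC G)
    (hst : ∀ b ∈ B, ∀ X, InAlg G X → ∃ b' ∈ B, (b * X - X * b) * e = b' * e)
    {a : Module.End K V} (ha : a ∈ B) (hna : ∀ c : K, a * e ≠ c • e)
    {X : Module.End K V} (hX : InAlg G X) : ∃ b ∈ B, X * e = b * e := by
  have hce : ∀ c, InAlg G c → c * e = e * c := fun c hc => comm_e hD hc
  have hmul : ∀ x y, InAlg G x → InAlg G y → InAlg G (x * y) := fun x y hx hy =>
    (DC G).mul_mem hx hy
  have hsub : ∀ x y, InAlg G x → InAlg G y → InAlg G (x - y) := fun x y hx hy =>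
    (DC G).sub_mem hx hy
  -- multiplication on the image of `e`
  have hm : ∀ x y x' y', InAlg G y → InAlg G y' → x * e = x' * e → y * e = y' * e →
      x * y * e = x' * y' * e := by
    intro x y x' y' hy hy' h1 h2
    rw [mul_assoc, hce y hy, ← mul_assoc, h1, mul_assoc, ← hce y hy, h2, mul_assoc]
  -- no zero divisors
  have hdom : ∀ x y, InAlg G x → InAlg G y → x * y * e = 0 → x * e = 0 ∨ y * e = 0 := by
    intro x y hx hy h0
    by_contra hcon
    push Not at hcon
    refine hcon.2 (LinearMap.ext fun v => ?_)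
    have h2 : y (e v) = e (y (e v)) := by
      have h3 := LinearMap.congr_fun (hce y hy) (e v)
      have h4 := LinearMap.congr_fun hD.idem v
      rw [Module.End.mul_apply] at h4
      rw [Module.End.mul_apply, Module.End.mul_apply, h4] at h3
      exact h3
    have h5 := hD.div x hx hcon.1 (y (e v)) (by
      rw [← h2]
      exact LinearMap.congr_fun h0 v)
    rw [← h2] at h5
    exact h5
  have haD := hB ha
  -- the element `a` is not central
  obtain ⟨d, hd, hda⟩ : ∃ d, InAlg G d ∧ (d * a - a * d) * e ≠ 0 := by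
    by_contra hcon
    push Not at hcon
    obtain ⟨c, hc⟩ := hD.centre (a * e) (hmul _ _ haD hD.mem) (fun Y hY => by
      have hYD : InAlg G Y := InAlg.of_mem hY
      have h2 := hcon Y hYD
      rw [sub_mul, sub_eq_zero] at h2
      rw [← mul_assoc, h2, mul_assoc, hce Y hYD, mul_assoc])
    rw [mul_assoc, hD.idem] at hc
    exact hna c hc
  -- `B` is not commutative
  obtain ⟨b, hb, hab⟩ : ∃ b ∈ B, (b * a - a * b) * e ≠ 0 := by
    by_contra hcon
    push Not at hcon
    have h1 : ∀ y, InAlg G y → ((y * a - a * y) * a - a * (y * a - a * y)) * e = 0 := by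
      intro y hy
      obtain ⟨b', hb', h2⟩ := hst a ha y hy
      have h3 := hcon b' hb'
      have hya : InAlg G (a * y - y * a) := hsub _ _ (hmul _ _ haD hy) (hmul _ _ hy haD)
      have h4 : b' * a * e = (a * y - y * a) * a * e := hm _ _ _ _ haD haD h2.symm rfl
      have h5 : a * b' * e = a * (a * y - y * a) * e := hm _ _ _ _ (hB hb') hya rfl h2.symm
      rw [sub_mul, h4, h5] at h3
      rw [sub_mul]
      have h6 : (y * a - a * y) = -(a * y - y * a) := by abel
      rw [h6, neg_mul, mul_neg, neg_mul, neg_mul, sub_neg_eq_add, neg_add_eq_sub, ← neg_sub, h3,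
        neg_zero]
    have h7 := h1 (d * d) (hmul _ _ hd hd)
    have h8 : ((d * d * a - a * (d * d)) * a - a * (d * d * a - a * (d * d))) =
        d * ((d * a - a * d) * a - a * (d * a - a * d)) + (2 : K) • ((d * a - a * d) * (d * a - a * d))
          + ((d * a - a * d) * a - a * (d * a - a * d)) * d := by
      rw [two_smul]
      noncomm_ring
    have hda' : InAlg G (d * a - a * d) := hsub _ _ (hmul _ _ hd haD) (hmul _ _ haD hd)
    rw [h8, add_mul, add_mul, mul_assoc d, h1 d hd, mul_zero, zero_add, mul_assoc _ d e, hce d hd,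
      ← mul_assoc, h1 d hd, zero_mul, add_zero, smul_mul_assoc, smul_eq_zero] at h7
    rcases h7 with h7 | h7
    · exact two_ne_zero h7
    · rcases hdom _ _ hda' hda' h7 with h9 | h9
      · exact hda h9
      · exact hda h9
  -- the conclusion
  have hbD := hB hb
  have hc : b * a - a * b ∈ B := B.sub_mem (B.mul_mem hb ha) (B.mul_mem ha hb)
  obtain ⟨c, hcB, h1⟩ := exists_inv hD hB hc hab
  obtain ⟨b₁, hb₁, h2⟩ := hst a ha (X * b) (hmul _ _ hX hbD)
  obtain ⟨b₂, hb₂, h3⟩ := hst a ha X hX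
  have haX : InAlg G (a * X - X * a) := hsub _ _ (hmul _ _ haD hX) (hmul _ _ hX haD)
  -- `[a, X b] = X [a, b] + [a, X] b`
  have h4 : X * (b * a - a * b) * e = (b₂ * b - b₁) * e := by
    have h5 : X * (b * a - a * b) = (a * X - X * a) * b - (a * (X * b) - X * b * a) := by
      noncomm_ring
    have h6 : (a * X - X * a) * b * e = b₂ * b * e := hm _ _ _ _ hbD hbD h3 rfl
    rw [h5, sub_mul, h6, h2, ← sub_mul]
  refine ⟨(b₂ * b - b₁) * c, B.mul_mem (B.sub_mem (B.mul_mem hb₂ hb) hb₁) hcB, ?_⟩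
  have h5 : X * ((b * a - a * b) * c) * e = X * 1 * e := hm _ _ _ _
    (hmul _ _ (hB hc) (hB hcB)) (DC G).one_mem rfl (by rw [h1, one_mul])
  rw [mul_one] at h5
  rw [← h5, ← mul_assoc]
  exact hm _ _ _ _ (hB hcB) (hB hcB) h4 rfl

/-- elements with given restrictions -/
theorem lift {P : Submodule K (Module.End K V)}
    (h : ∀ X Y, InAlg G X → InAlg G Y → ∃ A ∈ P, (X * Y - Y * X) * e = A * e)
    {s : Module.End K V} (hs : s ∈ Dr G e) : ∃ A ∈ P, A * e = s := by
  unfold Dr at hs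
  induction hs using Submodule.span_induction with
  | mem s hs =>
    obtain ⟨X, Y, hX, hY, rfl⟩ := hs
    obtain ⟨A, hA, h1⟩ := h X Y hX hY
    exact ⟨A, hA, h1.symm⟩
  | zero => exact ⟨0, P.zero_mem, zero_mul _⟩
  | add x y _ _ hx hy =>
    obtain ⟨A, hA, h1⟩ := hx
    obtain ⟨B, hB, h2⟩ := hy
    exact ⟨A + B, P.add_mem hA hB, by rw [add_mul, h1, h2]⟩
  | smul c x _ hx =>
    obtain ⟨A, hA, h1⟩ := hx
    exact ⟨c • A, P.smul_mem c hA, by rw [smul_mul_assoc, h1]⟩

/-- commutators and restrictions -/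
theorem br_e {X Y s t : Module.End K V} (hY : InAlg G Y) (hX : InAlg G X)
    (h1 : X * e = s) (h2 : Y * e = t) :
    (X * Y - Y * X) * e = s * t - t * s := by
  subst h1
  subst h2
  have e1 : X * Y * e = X * e * (Y * e) := by
    rw [mul_assoc X e, ← mul_assoc e Y e, ← comm_e hD hY, mul_assoc Y, hD.idem, mul_assoc]
  have e2 : Y * X * e = Y * e * (X * e) := by
    rw [mul_assoc Y e, ← mul_assoc e X e, ← comm_e hD hX, mul_assoc X, hD.idem, mul_assoc]
  rw [sub_mul, e1, e2]

/-- the commutators are perfect -/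
theorem perfect {s : Module.End K V} (hs : s ∈ Dr G e) :
    s ∈ Submodule.span K {Z | ∃ x ∈ Dr G e, ∃ y ∈ Dr G e, Z = x * y - y * x} := by
  unfold Dr at hs
  refine Submodule.span_le.2 ?_ hs
  rintro _ ⟨X, Y, hX, hY, rfl⟩
  obtain ⟨c, hc⟩ := exists_center hD hX
  obtain ⟨c', hc'⟩ := exists_center hD hY
  refine Submodule.subset_span ⟨_, hc, _, hc', ?_⟩
  rw [br_e hD hY hX rfl rfl]
  have h1 : ∀ Z, InAlg G Z → e * (Z * e) = Z * e := fun Z hZ => by
    rw [← mul_assoc, ← comm_e hD hZ, mul_assoc, hD.idem]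
  have h2 : ∀ Z : Module.End K V, Z * e * e = Z * e := fun Z => by rw [mul_assoc, hD.idem]
  simp only [sub_mul, mul_sub, smul_mul_assoc, mul_smul_comm, h1 X hX, h1 Y hY, h2, hD.idem]
  rw [smul_sub, smul_sub, smul_comm c c' e]
  abel

/-- the commutators are not zero -/
theorem Dr_ne (h : ∀ s ∈ Dr G e, s = 0) : False := by
  have h1 : (DC G).toSubmodule.map (LinearMap.mulRight K e) ≤ Submodule.span K {e} := by
    rintro _ ⟨X, hX, rfl⟩
    obtain ⟨c, hc⟩ := exists_center hD hX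
    exact Submodule.mem_span_singleton.2 ⟨c, (sub_eq_zero.1 (h _ hc)).symm⟩
  have h2 := Submodule.finrank_mono h1
  rw [finrank_DC hD, finrank_span_singleton hD.ne] at h2
  have h3 := hD.pp.two_le
  nlinarith

/-- **Ideals which are not central.** -/
theorem ideal_full {L P : Submodule K (Module.End K V)} (hL : ∀ X ∈ L, InAlg G X)
    (hfull : ∀ X Y, InAlg G X → InAlg G Y → ∃ A ∈ L, (X * Y - Y * X) * e = A * e)
    (hPL : P ≤ L) (hP : ∀ X ∈ P, ∀ Y ∈ L, X * Y - Y * X ∈ P)
    {a : Module.End K V} (ha : a ∈ P) (hna : ∀ c : K, a * e ≠ c • e)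
    {X Y : Module.End K V} (hX : InAlg G X) (hY : InAlg G Y) :
    ∃ A ∈ P, (X * Y - Y * X) * e = A * e := by
  have hce : ∀ c, InAlg G c → c * e = e * c := fun c hc => comm_e hD hc
  refine bracket_gen hD (fun X hX => hL X (hPL hX)) (fun X hX Y hY => hP X hX Y (hPL hY))
    (fun X hX => ?_) hX hY
  have hB : Algebra.adjoin K (P : Set (Module.End K V)) ≤ DC G :=
    Algebra.adjoin_le fun X hX => hL X (hPL hX)
  refine cbh hD (Algebra.adjoin K (P : Set (Module.End K V))) hB (fun b hb X hX => ?_)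
    (Algebra.subset_adjoin ha) hna hX
  obtain ⟨c, hc⟩ := exists_center hD hX
  obtain ⟨A, hA, hA'⟩ := lift hD hfull hc
  have hAD := hL A hA
  have hXA : X * e = (A + algebraMap K _ c) * e := by
    rw [add_mul, hA', Algebra.algebraMap_eq_smul_one, smul_mul_assoc, one_mul, sub_add_cancel]
  have hst : ∀ b ∈ Algebra.adjoin K (P : Set (Module.End K V)),
      b * A - A * b ∈ Algebra.adjoin K (P : Set (Module.End K V)) := by
    intro b hb
    induction hb using Algebra.adjoin_induction with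
    | mem x hx => exact Algebra.subset_adjoin (hP x hx A hA)
    | algebraMap r =>
      rw [Algebra.commutes, sub_self]
      exact (Algebra.adjoin K (P : Set (Module.End K V))).zero_mem
    | add x y _ _ hx hy =>
      have h1 : (x + y) * A - A * (x + y) = (x * A - A * x) + (y * A - A * y) := by
        noncomm_ring
      rw [h1]
      exact (Algebra.adjoin K (P : Set (Module.End K V))).add_mem hx hy
    | mul x y hx' hy' hx hy =>
      have h1 : x * y * A - A * (x * y) = x * (y * A - A * y) + (x * A - A * x) * y := by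
        noncomm_ring
      rw [h1]
      exact (Algebra.adjoin K (P : Set (Module.End K V))).add_mem
        ((Algebra.adjoin K (P : Set (Module.End K V))).mul_mem hx' hy)
        ((Algebra.adjoin K (P : Set (Module.End K V))).mul_mem hx hy')
  refine ⟨b * A - A * b, hst b hb, ?_⟩
  have hbD := hB hb
  rw [sub_mul, sub_mul, mul_assoc b X, mul_assoc X b, hce b hbD, ← mul_assoc X e b, hXA, add_mul,
    mul_add, add_mul, mul_assoc A e b, ← hce b hbD, mul_assoc b A e, ← mul_assoc A b e,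
    mul_assoc (algebraMap K (Module.End K V) c) e b, ← hce b hbD, ← mul_assoc _ b e,
    Algebra.commutes c b, mul_assoc b (algebraMap K (Module.End K V) c) e, add_sub_add_right_eq_sub]

end one

section several

/-- The linear map `f` gives an isomorphism of the Lie algebra `S` with the Lie algebra `T`. -/
structure LieIso (S T : Submodule K (Module.End K V)) (f : Module.End K V →ₗ[K] Module.End K V) :
    Prop where
  maps : ∀ x ∈ S, f x ∈ T
  inj : ∀ x ∈ S, f x = 0 → x = 0
  surj : ∀ y ∈ T, ∃ x ∈ S, f x = y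
  lie : ∀ x ∈ S, ∀ y ∈ S, f (x * y - y * x) = f x * f y - f y * f x

/-- The derived algebra. -/
def Dv (L : Submodule K (Module.End K V)) : Submodule K (Module.End K V) :=
  Submodule.span K {Z | ∃ A ∈ L, ∃ B ∈ L, Z = A * B - B * A}

theorem Dv_le {L : Submodule K (Module.End K V)} (hbr : ∀ X ∈ L, ∀ Y ∈ L, X * Y - Y * X ∈ L) :
    Dv L ≤ L := by
  unfold Dv
  rw [Submodule.span_le]
  rintro _ ⟨A, hA, B, hB, rfl⟩
  exact hbr A hA B hB

theorem Dv_e {L : Submodule K (Module.End K V)} (hL : ∀ X ∈ L, InAlg G X) {e : Module.End K V}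
    {A : Module.End K V} (hA : A ∈ Dv L) : A * e ∈ Dr G e := by
  unfold Dv at hA
  induction hA using Submodule.span_induction with
  | mem s hs =>
    obtain ⟨A, hA, B, hB, rfl⟩ := hs
    exact Dr_mem (hL A hA) (hL B hB)
  | zero =>
    rw [zero_mul]
    exact (Dr G e).zero_mem
  | add x y _ _ hx hy =>
    rw [add_mul]
    exact (Dr G e).add_mem hx hy
  | smul c x _ hx =>
    rw [smul_mul_assoc]
    exact (Dr G e).smul_mem c hx

theorem Dv_lift {e : Module.End K V} {q : ℕ} (hD : DivE G e q)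
    {L : Submodule K (Module.End K V)} (hL : ∀ X ∈ L, InAlg G X)
    (hfull : ∀ X Y, InAlg G X → InAlg G Y → ∃ A ∈ L, (X * Y - Y * X) * e = A * e)
    {s : Module.End K V} (hs : s ∈ Dr G e) : ∃ A ∈ Dv L, A * e = s := by
  have h1 := perfect hD hs
  clear hs
  induction h1 using Submodule.span_induction with
  | mem s hs =>
    obtain ⟨x, hx, y, hy, rfl⟩ := hs
    obtain ⟨A, hA, h1⟩ := lift hD hfull hx
    obtain ⟨B, hB, h2⟩ := lift hD hfull hy
    exact ⟨A * B - B * A, Submodule.subset_span ⟨A, hA, B, hB, rfl⟩,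
      br_e hD (hL B hB) (hL A hA) h1 h2⟩
  | zero => exact ⟨0, (Dv L).zero_mem, zero_mul _⟩
  | add x y _ _ hx hy =>
    obtain ⟨A, hA, h1⟩ := hx
    obtain ⟨B, hB, h2⟩ := hy
    exact ⟨A + B, (Dv L).add_mem hA hB, by rw [add_mul, h1, h2]⟩
  | smul c x _ hx =>
    obtain ⟨A, hA, h1⟩ := hx
    exact ⟨c • A, (Dv L).smul_mem c hA, by rw [smul_mul_assoc, h1]⟩

variable {e e' : Module.End K V} {q q' : ℕ} (hD : DivE G e q) (hD' : DivE G e' q')
  {L : Submodule K (Module.End K V)} (hL : ∀ X ∈ L, InAlg G X)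
  (hbr : ∀ X ∈ L, ∀ Y ∈ L, X * Y - Y * X ∈ L)

/-- the elements of `L` which are zero on the image of `e` -/
def Kr (L : Submodule K (Module.End K V)) (e : Module.End K V) : Submodule K (Module.End K V) where
  carrier := {A | A ∈ L ∧ A * e = 0}
  add_mem' := fun {a b} ha hb => ⟨L.add_mem ha.1 hb.1, by rw [add_mul, ha.2, hb.2, add_zero]⟩
  zero_mem' := ⟨L.zero_mem, zero_mul _⟩
  smul_mem' := fun c a ha => ⟨L.smul_mem c ha.1, by rw [smul_mul_assoc, ha.2, smul_zero]⟩

include hD hL hbr in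
theorem Kr_ideal {X Y : Module.End K V} (hX : X ∈ Kr L e) (hY : Y ∈ L) :
    X * Y - Y * X ∈ Kr L e := by
  refine ⟨hbr X hX.1 Y hY, ?_⟩
  rw [sub_mul, mul_assoc, comm_e hD (hL Y hY), ← mul_assoc, hX.2, zero_mul, mul_assoc, hX.2,
    mul_zero, sub_zero]

include hD hD' hL hbr in
/-- **Two blocks.** -/
theorem pair
    (hfull : ∀ X Y, InAlg G X → InAlg G Y → ∃ A ∈ L, (X * Y - Y * X) * e = A * e)
    (hfull' : ∀ X Y, InAlg G X → InAlg G Y → ∃ A ∈ L, (X * Y - Y * X) * e' = A * e')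
    (hsep : ∀ f, ¬ LieIso (Dr G e) (Dr G e') f) {s : Module.End K V} (hs : s ∈ Dr G e') :
    ∃ A ∈ L, A * e = 0 ∧ A * e' = s := by
  by_cases hna : ∃ a ∈ Kr L e, ∀ c : K, a * e' ≠ c • e'
  · obtain ⟨a, ha, hna⟩ := hna
    have h1 := fun X Y (hX : InAlg G X) (hY : InAlg G Y) => ideal_full hD' hL hfull'
      (P := Kr L e) (fun X hX => hX.1) (fun X hX Y hY => Kr_ideal hD hL hbr hX hY) ha hna hX hY
    obtain ⟨A, hA, h2⟩ := lift hD' h1 hs
    exact ⟨A, hA.1, hA.2, h2⟩
  push Not at hna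
  -- elements of the derived algebra
  have hker : ∀ A ∈ Dv L, A * e = 0 → A * e' = 0 := by
    intro A hA h0
    obtain ⟨c, hc⟩ := hna A ⟨Dv_le hbr hA, h0⟩
    exact Dr_center hD' (Dv_e hL hA) hc
  exfalso
  by_cases hna' : ∃ a ∈ Kr L e', ∀ c : K, a * e ≠ c • e
  · -- the projection to the first block is the full algebra on the kernel of the second
    obtain ⟨a, ha, hna'⟩ := hna'
    have h1 := fun X Y (hX : InAlg G X) (hY : InAlg G Y) => ideal_full hD hL hfull
      (P := Kr L e') (fun X hX => hX.1) (fun X hX Y hY => Kr_ideal hD' hL hbr hX hY) ha hna' hX hY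
    have h2 : ∀ s ∈ Dr G e', s = 0 := by
      intro s hs
      obtain ⟨A, hA, h2⟩ := Dv_lift hD' hL hfull' hs
      obtain ⟨B, hB, h3⟩ := lift hD h1 (Dv_e hL (e := e) hA)
      obtain ⟨c, hc⟩ := hna (A - B) ⟨L.sub_mem (Dv_le hbr hA) hB.1, by rw [sub_mul, h3, sub_self]⟩
      rw [sub_mul, hB.2, sub_zero, h2] at hc
      exact Dr_center hD' hs hc
    exact Dr_ne hD' h2
  push Not at hna'
  have hker' : ∀ A ∈ Dv L, A * e' = 0 → A * e = 0 := by
    intro A hA h0
    obtain ⟨c, hc⟩ := hna' A ⟨Dv_le hbr hA, h0⟩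
    exact Dr_center hD (Dv_e hL hA) hc
  -- the isomorphism
  let Φ : Dv L →ₗ[K] Dr G e := ((LinearMap.mulRight K e).comp (Dv L).subtype).codRestrict _
    fun A => Dv_e hL A.2
  let Φ' : Dv L →ₗ[K] Module.End K V := (LinearMap.mulRight K e').comp (Dv L).subtype
  have hsurj : LinearMap.range Φ = ⊤ := by
    rw [LinearMap.range_eq_top]
    rintro ⟨s, hs⟩
    obtain ⟨A, hA, h1⟩ := Dv_lift hD hL hfull hs
    exact ⟨⟨A, hA⟩, Subtype.ext h1⟩
  obtain ⟨g, hg⟩ := Φ.exists_rightInverse_of_surjective hsurj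
  obtain ⟨f, hf⟩ := LinearMap.exists_extend (Φ' ∘ₗ g)
  have hfA : ∀ A ∈ Dv L, f (A * e) = A * e' := by
    intro A hA
    have h1 : f (A * e) = Φ' (g ⟨A * e, Dv_e hL hA⟩) :=
      LinearMap.congr_fun hf ⟨A * e, Dv_e hL hA⟩
    rw [h1]
    have h2 : Φ (g ⟨A * e, Dv_e hL hA⟩) = ⟨A * e, Dv_e hL hA⟩ := LinearMap.congr_fun hg _
    have h3 : ((g ⟨A * e, Dv_e hL hA⟩ : Dv L) : Module.End K V) * e = A * e :=
      congrArg Subtype.val h2
    have h4 := hker (((g ⟨A * e, Dv_e hL hA⟩ : Dv L) : Module.End K V) - A)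
      ((Dv L).sub_mem (g ⟨A * e, Dv_e hL hA⟩).2 hA) (by rw [sub_mul, h3, sub_self])
    rw [sub_mul, sub_eq_zero] at h4
    exact h4
  refine hsep f ⟨fun x hx => ?_, fun x hx h0 => ?_, fun y hy => ?_, fun x hx y hy => ?_⟩
  · obtain ⟨A, hA, rfl⟩ := Dv_lift hD hL hfull hx
    rw [hfA A hA]
    exact Dv_e hL hA
  · obtain ⟨A, hA, rfl⟩ := Dv_lift hD hL hfull hx
    rw [hfA A hA] at h0
    exact hker' A hA h0
  · obtain ⟨A, hA, rfl⟩ := Dv_lift hD' hL hfull' hy
    exact ⟨A * e, Dv_e hL hA, hfA A hA⟩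
  · obtain ⟨A, hA, rfl⟩ := Dv_lift hD hL hfull hx
    obtain ⟨B, hB, rfl⟩ := Dv_lift hD hL hfull hy
    have hA' := hL A (Dv_le hbr hA)
    have hB' := hL B (Dv_le hbr hB)
    rw [hfA A hA, hfA B hB, ← br_e hD hB' hA' rfl rfl, ← br_e hD' hB' hA' rfl rfl]
    exact hfA _ (Submodule.subset_span ⟨A, Dv_le hbr hA, B, Dv_le hbr hB, rfl⟩)

variable {J : Type} [Fintype J] [DecidableEq J] {ε : J → Module.End K V} {p : J → ℕ}
  (hDJ : ∀ j, DivE G (ε j) (p j))

include hDJ hL hbr in
/-- **Elements of `L` with support in one block.** -/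
theorem single
    (hfull : ∀ j X Y, InAlg G X → InAlg G Y → ∃ A ∈ L, (X * Y - Y * X) * ε j = A * ε j)
    (hsep : ∀ i j, i ≠ j → ∀ f, ¬ LieIso (Dr G (ε i)) (Dr G (ε j)) f) (j : J)
    (I : Finset J) (hI : ∀ i ∈ I, i ≠ j) : ∀ s ∈ Dr G (ε j),
    ∃ A ∈ L, A * ε j = s ∧ ∀ i ∈ I, A * ε i = 0 := by
  induction I using Finset.induction_on with
  | empty =>
    intro s hs
    obtain ⟨A, hA, h1⟩ := lift (hDJ j) (hfull j) hs
    exact ⟨A, hA, h1, fun i hi => absurd hi (Finset.notMem_empty i)⟩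
  | insert a I _ ih =>
    have ih' := ih fun i hi => hI i (Finset.mem_insert_of_mem hi)
    have haj := hI a (Finset.mem_insert_self a I)
    intro s hs
    have h1 := perfect (hDJ j) hs
    clear hs
    induction h1 using Submodule.span_induction with
    | mem s hs =>
      obtain ⟨x, hx, y, hy, rfl⟩ := hs
      obtain ⟨A, hA, h1, h2⟩ := ih' x hx
      obtain ⟨B, hB, h3, h4⟩ := pair (hDJ a) (hDJ j) hL hbr (hfull a) (hfull j) (hsep a j haj) hy
      refine ⟨A * B - B * A, hbr A hA B hB, br_e (hDJ j) (hL B hB) (hL A hA) h1 h4, fun i hi => ?_⟩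
      rcases Finset.mem_insert.1 hi with rfl | hi
      · rw [sub_mul, mul_assoc, h3, mul_zero, mul_assoc, comm_e (hDJ i) (hL A hA), ← mul_assoc, h3,
          zero_mul, sub_zero]
      · rw [sub_mul, mul_assoc, comm_e (hDJ i) (hL B hB), ← mul_assoc, h2 i hi, zero_mul, mul_assoc,
          h2 i hi, mul_zero, sub_zero]
    | zero => exact ⟨0, L.zero_mem, zero_mul _, fun i _ => zero_mul _⟩
    | add x y _ _ hx hy =>
      obtain ⟨A, hA, h1, h2⟩ := hx
      obtain ⟨B, hB, h3, h4⟩ := hy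
      exact ⟨A + B, L.add_mem hA hB, by rw [add_mul, h1, h3], fun i hi => by
        rw [add_mul, h2 i hi, h4 i hi, add_zero]⟩
    | smul c x _ hx =>
      obtain ⟨A, hA, h1, h2⟩ := hx
      exact ⟨c • A, L.smul_mem c hA, by rw [smul_mul_assoc, h1], fun i hi => by
        rw [smul_mul_assoc, h2 i hi, smul_zero]⟩

include hDJ hL hbr in
/-- **Commutators in several blocks.** -/
theorem bracket_all
    (hfull : ∀ j X Y, InAlg G X → InAlg G Y → ∃ A ∈ L, (X * Y - Y * X) * ε j = A * ε j)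
    (hsep : ∀ i j, i ≠ j → ∀ f, ¬ LieIso (Dr G (ε i)) (Dr G (ε j)) f)
    {X Y : Module.End K V} (hX : InAlg G X) (hY : InAlg G Y) :
    ∃ A ∈ L, ∀ j, (X * Y - Y * X) * ε j = A * ε j := by
  have h1 : ∀ j, ∃ A ∈ L, A * ε j = (X * Y - Y * X) * ε j ∧ ∀ i ≠ j, A * ε i = 0 := by
    intro j
    obtain ⟨A, hA, h1, h2⟩ := single hL hbr hDJ hfull hsep j (Finset.univ.erase j)
      (fun i hi => Finset.ne_of_mem_erase hi) _ (Dr_mem hX hY)
    exact ⟨A, hA, h1, fun i hi => h2 i (Finset.mem_erase.2 ⟨hi, Finset.mem_univ i⟩)⟩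
  choose A hA h1 h2 using h1
  refine ⟨∑ j, A j, L.sum_mem fun j _ => hA j, fun j => ?_⟩
  rw [Finset.sum_mul, Finset.sum_eq_single j (fun i _ hij => h2 i j hij.symm)
    (fun h => absurd (Finset.mem_univ j) h), h1]

end several

end

end Pool.Agent.H943.MO
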