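import Mathlib
import Pool.Agent.H943.MO.Gou
import Pool.Graph.R_pool_sql_team_seeded_9f66d723.H50.FT.OneP

/-!
# Tate tensors of motives of division type
-/

set_option autoImplicit false
set_option linter.unusedSectionVars false

namespace Pool.Agent.H943.MO

open Module TensorProduct Polynomial Pool.Agent.TH118.SG Pool.Agent.Y114.RM Pool.Agent.Y114.MU
  Pool.Agent.Y114.TF Pool.Agent.H204R3.GP Pool.Agent Pool.Agent.R913.Adj Pool.Agent.H50.FT

section weight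

variable {ι : Type} [Fintype ι] [DecidableEq ι] {n : ι → ℕ} {ℓ : ℕ} [hℓ : Fact ℓ.Prime]
  {Γ : Type} [Group Γ]

/-- The weight operator is in the algebraic Lie algebra of the image (the proof is
`Pool.Agent.R913.Adj.weight_kills` of the library). -/
theorem weight_mem (ρ : ∀ i, Representation ℚ_[ℓ] Γ (Fin (n i) → ℚ_[ℓ])) {w : ι → ℤ} {γ : Γ}
    (hγ : ActsPurely ρ w γ) {L : Submodule ℚ_[ℓ] (End ℚ_[ℓ] (∀ i, Fin (n i) → ℚ_[ℓ]))}
    (hL : ∀ X, X ∈ L ↔ X ∈ LT (sumRep ρ)) :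
    weightOp (k := ℚ_[ℓ]) (fun i => Fin (n i) → ℚ_[ℓ]) w ∈ L := by
  obtain ⟨q, P, hq, hP⟩ := hγ
  obtain ⟨j⟩ := exists_emb ℓ
  let alg : Algebra ℚ_[ℓ] ℂ := j.toAlgebra
  obtain ⟨W, hW⟩ : ∃ W, W = weightOp (k := ℚ_[ℓ]) (fun i => Fin (n i) → ℚ_[ℓ]) w := ⟨_, rfl⟩
  rw [← hW]
  have hop : IsOp (lg2 q) ((sumRep ρ γ).baseChange ℂ) (W.baseChange ℂ) := by
    intro β x hx
    let e : ∀ i, End ℚ_[ℓ] (∀ i, Fin (n i) → ℚ_[ℓ]) := fun i =>
      em (K := ℚ_[ℓ]) (V := fun i => Fin (n i) → ℚ_[ℓ]) i 1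
    have he1 : (1 : End ℚ_[ℓ] (∀ i, Fin (n i) → ℚ_[ℓ])) = ∑ i, e i := by
      refine LinearMap.ext fun x => funext fun l => ?_
      rw [LinearMap.sum_apply, Finset.sum_apply, Finset.sum_eq_single l]
      · change x l = (Pi.single l (x l) : ∀ i, Fin (n i) → ℚ_[ℓ]) l
        rw [Pi.single_eq_same]
      · intro i _ hil
        exact Pi.single_eq_of_ne (Ne.symm hil) _
      · intro h
        exact absurd (Finset.mem_univ l) h
    have he2 : W = ∑ i, (w i : ℚ_[ℓ]) • e i := by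
      refine LinearMap.ext fun x => funext fun l => ?_
      rw [LinearMap.sum_apply, Finset.sum_apply, Finset.sum_eq_single l]
      · rw [hW]
        change (w l : ℚ_[ℓ]) • x l =
          (w l : ℚ_[ℓ]) • (Pi.single l (x l) : ∀ i, Fin (n i) → ℚ_[ℓ]) l
        rw [Pi.single_eq_same]
      · intro i _ hil
        change (w i : ℚ_[ℓ]) • (Pi.single i (x i) : ∀ i, Fin (n i) → ℚ_[ℓ]) l = 0
        rw [Pi.single_eq_of_ne (Ne.symm hil), smul_zero]
      · intro h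
        exact absurd (Finset.mem_univ l) h
    have hx1 : x = ∑ i, (e i).baseChange ℂ x := by
      have h1 : (1 : End ℚ_[ℓ] (∀ i, Fin (n i) → ℚ_[ℓ])).baseChange ℂ x =
          ∑ i, (e i).baseChange ℂ x := by
        rw [he1, bc_sum, LinearMap.sum_apply]
      rwa [bc_one, Module.End.one_apply] at h1
    have hx2 : W.baseChange ℂ x = ∑ i, (w i : ℂ) • (e i).baseChange ℂ x := by
      rw [he2, bc_sum, LinearMap.sum_apply]
      refine Finset.sum_congr rfl fun i _ => ?_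
      rw [LinearMap.baseChange_smul, LinearMap.smul_apply, ← algebraMap_smul ℂ, map_intCast]
    rw [hx2]
    conv_rhs => rw [hx1, Finset.smul_sum]
    refine Finset.sum_congr rfl fun i _ => ?_
    have hz : (LinearMap.proj (R := ℚ_[ℓ]) (φ := fun i => Fin (n i) → ℚ_[ℓ]) i).baseChange ℂ x ∈
        Module.End.maxGenEigenspace ((ρ i γ).baseChange ℂ : End ℂ (ℂ ⊗[ℚ_[ℓ]] (Fin (n i) → ℚ_[ℓ])))
          β := by
      refine Y86.RM.map_gen (f₁ := (sumRep ρ γ).baseChange ℂ) (fun y => ?_) hx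
      induction y using TensorProduct.induction_on with
      | zero => simp only [map_zero]
      | tmul c v => simp only [LinearMap.baseChange_tmul]; rfl
      | add a b ha hb => simp only [map_add, ha, hb]
    by_cases h0 : (LinearMap.proj (R := ℚ_[ℓ]) (φ := fun i => Fin (n i) → ℚ_[ℓ]) i).baseChange ℂ x
      = 0
    · have h1 : (e i).baseChange ℂ x = 0 := by
        have h2 : e i = (LinearMap.single ℚ_[ℓ] (fun i => Fin (n i) → ℚ_[ℓ]) i) ∘ₗ
            (LinearMap.proj i) := rfl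
        rw [h2, LinearMap.baseChange_comp, LinearMap.comp_apply, h0, map_zero]
      rw [h1, smul_zero, smul_zero]
    · have h1 : Module.End.HasEigenvalue
          ((ρ i γ).baseChange ℂ : End ℂ (ℂ ⊗[ℚ_[ℓ]] (Fin (n i) → ℚ_[ℓ]))) β := by
        refine (Module.End.hasUnifEigenvalue_iff_hasUnifEigenvalue_one (k := ⊤) (by simp)).1 ?_
        intro h2
        have h3 := hz
        rw [Module.End.maxGenEigenspace, h2] at h3
        exact h0 ((Submodule.mem_bot ℂ).1 h3)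
      have h2 : β ∈ (P i).aroots ℂ := by
        have h3 := (Module.End.hasEigenvalue_iff_isRoot_charpoly _ _).1 h1
        rw [LinearMap.charpoly_baseChange, (hP i).1, Polynomial.map_map] at h3
        have h4 : (algebraMap ℚ_[ℓ] ℂ).comp (algebraMap ℚ ℚ_[ℓ]) = algebraMap ℚ ℂ :=
          Subsingleton.elim _ _
        rw [h4] at h3
        have h5 : P i ≠ 0 := by
          intro h6
          have h7 := (ρ i γ).charpoly_monic.ne_zero
          rw [(hP i).1, h6, Polynomial.map_zero] at h7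
          exact h7 rfl
        rw [Polynomial.mem_aroots]
        refine ⟨h5, ?_⟩
        rw [Polynomial.aeval_def, ← Polynomial.eval_map]
        exact h3
      rw [ext0_of_pure hq ((hP i).2 β h2)]
  have h1 := op_mem ℂ hL γ (lg2 q) (W.baseChange ℂ) hop
  rw [(Y809.RM.BC.bc ℚ_[ℓ] ℂ _ L).1] at h1
  obtain ⟨π, hπ⟩ := exists_pi ℚ_[ℓ] ℂ
  have h2 := h1 π
  rwa [pM_bc π hπ] at h2

/-- the trace of the square of the weight operator -/
theorem trace_weight (w : ι → ℤ) :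
    LinearMap.trace ℚ_[ℓ] (∀ i, Fin (n i) → ℚ_[ℓ])
      (weightOp (k := ℚ_[ℓ]) (fun i => Fin (n i) → ℚ_[ℓ]) w *
        weightOp (k := ℚ_[ℓ]) (fun i => Fin (n i) → ℚ_[ℓ]) w) = ∑ i, ((w i : ℚ_[ℓ]) ^ 2 * (n i : ℚ_[ℓ])) := by
  have h1 : weightOp (k := ℚ_[ℓ]) (fun i => Fin (n i) → ℚ_[ℓ]) w *
      weightOp (k := ℚ_[ℓ]) (fun i => Fin (n i) → ℚ_[ℓ]) w = ∑ i, ((w i : ℚ_[ℓ]) ^ 2) •
        pj (k := ℚ_[ℓ]) (V := fun i => Fin (n i) → ℚ_[ℓ]) i := by
    refine LinearMap.ext fun x => funext fun l => ?_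
    rw [LinearMap.sum_apply, Finset.sum_apply, Finset.sum_eq_single l]
    · change (w l : ℚ_[ℓ]) • ((w l : ℚ_[ℓ]) • x l) =
        ((w l : ℚ_[ℓ]) ^ 2) • (Pi.single l (x l) : ∀ i, Fin (n i) → ℚ_[ℓ]) l
      rw [Pi.single_eq_same, smul_smul, sq]
    · intro i _ hil
      change ((w i : ℚ_[ℓ]) ^ 2) • (Pi.single i (x i) : ∀ i, Fin (n i) → ℚ_[ℓ]) l = 0
      rw [Pi.single_eq_of_ne (Ne.symm hil), smul_zero]
    · intro h
      exact absurd (Finset.mem_univ l) h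
  rw [h1, map_sum]
  refine Finset.sum_congr rfl fun i _ => ?_
  rw [map_smul, smul_eq_mul]
  congr 1
  have h2 := trace_pj (k := ℚ_[ℓ]) (V := fun i => Fin (n i) → ℚ_[ℓ]) 1 i
  rw [mul_one] at h2
  rw [h2]
  have h3 : Pool.Agent.H50.FT.blk (k := ℚ_[ℓ]) (V := fun i => Fin (n i) → ℚ_[ℓ]) i 1 = 1 := by
    refine LinearMap.ext fun x => ?_
    rw [Pool.Agent.H50.FT.blk_apply, Module.End.one_apply, Module.End.one_apply, Pi.single_eq_same]
  rw [h3, LinearMap.trace_one, finrank_fin_fun]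

/-- if its square has trace zero the weight operator is zero -/
theorem weight_eq_zero {w : ι → ℤ}
    (h : LinearMap.trace ℚ_[ℓ] (∀ i, Fin (n i) → ℚ_[ℓ])
      (weightOp (k := ℚ_[ℓ]) (fun i => Fin (n i) → ℚ_[ℓ]) w *
        weightOp (k := ℚ_[ℓ]) (fun i => Fin (n i) → ℚ_[ℓ]) w) = 0) :
    weightOp (k := ℚ_[ℓ]) (fun i => Fin (n i) → ℚ_[ℓ]) w = 0 := by
  rw [trace_weight] at h
  have h1 : ((∑ i, (w i ^ 2 * (n i : ℤ)) : ℤ) : ℚ_[ℓ]) = 0 := by
    rw [← h]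
    push_cast
    rfl
  have h2 : (∑ i, (w i ^ 2 * (n i : ℤ)) : ℤ) = 0 := by exact_mod_cast h1
  rw [Finset.sum_eq_zero_iff_of_nonneg (fun i _ => by positivity)] at h2
  refine LinearMap.ext fun x => funext fun l => ?_
  change (w l : ℚ_[ℓ]) • x l = 0
  rcases mul_eq_zero.1 (h2 l (Finset.mem_univ l)) with h3 | h3
  · rw [pow_eq_zero_iff two_ne_zero] at h3
    rw [h3, Int.cast_zero, zero_smul]
  · have h4 : n l = 0 := by exact_mod_cast h3
    funext a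
    exact absurd a.2 (by omega)

end weight

section tens

open Pool.Agent.Y41.RM Pool.Agent.H204R3.SP

variable {k : Type} [Field k] {V : Type} [AddCommGroup V] [Module k V] {Γ : Type} [Group Γ]

/-- The endomorphisms which kill all Tate tensors. -/
def TVm (ρ : Representation k Γ V) : Submodule k (End k V) where
  carrier := {X | ∀ (m : ℕ) (φ : Tensor k V m), TateTensor ρ φ → KillsTensor X φ}
  zero_mem' := by
    intro m φ _ v
    refine Finset.sum_eq_zero fun l _ => ?_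
    rw [Pool.Agent.Y41.RM.lie_zero, LinearMap.zero_apply]
    exact φ.map_coord_zero l (Function.update_self _ _ _)
  add_mem' := by
    intro X Y hX' hY' m φ hφ v
    have e1 := hX' m φ hφ v
    have e2 := hY' m φ hφ v
    have e3 := congrArg₂ (fun x y : k => x + y) e1 e2
    simp only [add_zero] at e3
    rw [← e3, ← Finset.sum_add_distrib]
    refine Finset.sum_congr rfl fun l _ => ?_
    rw [Pool.Agent.Y41.RM.lie_add, LinearMap.add_apply, MultilinearMap.map_update_add]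
  smul_mem' := by
    intro c X hX' m φ hφ v
    have e1 := hX' m φ hφ v
    rw [← mul_zero c, ← e1, Finset.mul_sum]
    refine Finset.sum_congr rfl fun l _ => ?_
    rw [Pool.Agent.Y41.RM.lie_smul, LinearMap.smul_apply, MultilinearMap.map_update_smul, smul_eq_mul]

theorem tv_lie (ρ : Representation k Γ V) : IsLie (TVm ρ) := by
  intro X hX Y hY m φ hφ
  have e1 : Kills (Pool.Agent.Y114.RM.lie X) φ := hX m φ hφ
  have e2 : Kills (Pool.Agent.Y114.RM.lie Y) φ := hY m φ hφ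
  have e3 := kills_bracket e1 e2
  rw [← Pool.Agent.Y41.RM.lie_bracket] at e3
  exact e3

end tens

section main

variable {ι : Type} [Fintype ι] [DecidableEq ι] {n : ι → ℕ} {ℓ : ℕ} [hℓ : Fact ℓ.Prime]
  {Γ : Type} [Group Γ] [TopologicalSpace Γ] [IsTopologicalGroup Γ] [CompactSpace Γ]

/-- **All Tate tensors are killed.** -/
theorem kills_all (ρ : ∀ i, Representation ℚ_[ℓ] Γ (Fin (n i) → ℚ_[ℓ]))
    (hρ : ∀ i, Continuous fun g => LinearMap.toMatrix' (ρ i g))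
    {𝔤 : Submodule ℚ_[ℓ] (End ℚ_[ℓ] (∀ i, Fin (n i) → ℚ_[ℓ]))} (h𝔤 : IsMotivic ρ 𝔤)
    {J : Type} [Fintype J] [DecidableEq J] {e : J → End ℚ_[ℓ] (∀ i, Fin (n i) → ℚ_[ℓ])}
    {q : J → ℕ} (hD : ∀ j, DivE 𝔤 (e j) (q j))
    (hsep : ∀ i j, i ≠ j → ∀ f, ¬ LieIso (Dr 𝔤 (e i)) (Dr 𝔤 (e j)) f)
    (hdet : ∀ X ∈ 𝔤, (∀ j, X * e j = 0) → ∀ Y ∈ 𝔤, Y * X = X * Y)
    (hend : ∀ Y : End ℚ_[ℓ] (∀ i, Fin (n i) → ℚ_[ℓ]),
      (∃ Δ : Subgroup Γ, Δ.FiniteIndex ∧ ∀ γ ∈ Δ, sumRep ρ γ * Y = Y * sumRep ρ γ) →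
        ∀ X ∈ 𝔤, X * Y = Y * X)
    {w : ι → ℤ} {γ : Γ} (hγ : ActsPurely ρ w γ) (hab : AbPart ρ w 𝔤) :
    ∀ (m : ℕ) (φ : Tensor ℚ_[ℓ] (∀ i, Fin (n i) → ℚ_[ℓ]) m), TateTensor (sumRep ρ) φ →
      ∀ X ∈ 𝔤, KillsTensor X φ := by
  obtain ⟨L, hL, hLie, hAd, -⟩ := Y41.RM.lieL' ℚ_[ℓ] (∀ i, Fin (n i) → ℚ_[ℓ]) Γ (sumRep ρ)
  have hLG : L ≤ 𝔤 := fun X hX => h𝔤.algebraic X fun m φ hφ =>
    ((hL X).1 hX).2 m φ (h𝔤.tate m φ hφ)
  have hcomm : ∀ Y, (∀ X ∈ L, X * Y = Y * X) → ∀ X ∈ 𝔤, X * Y = Y * X := by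
    intro Y hY
    obtain ⟨Δ, hΔ, h1⟩ := Y220.RM.tfr ℓ ι n Γ ρ hρ (Pool.Agent.R913.Adj.comm L)
      (Pool.Agent.R913.Adj.comm_conj hAd) (Pool.Agent.R913.Adj.comm_order hL)
    exact hend Y ⟨Δ, hΔ, fun γ hγ => h1 γ hγ Y hY⟩
  have hbr : ∀ X ∈ 𝔤, ∀ Y ∈ 𝔤, ∃ A ∈ L, X * Y - Y * X - A ∈ 𝔤 ∧
      ∀ Z ∈ 𝔤, Z * (X * Y - Y * X - A) = (X * Y - Y * X - A) * Z := by
    intro X hX Y hY
    obtain ⟨A, hA, h1⟩ := bracket_all (fun X hX => InAlg.of_mem (hLG hX)) hLie hD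
      (fun j X Y hX hY => bracket_mem (hD j) hLG hLie hcomm hX hY) hsep (InAlg.of_mem hX)
      (InAlg.of_mem hY)
    have h2 : X * Y - Y * X - A ∈ 𝔤 := 𝔤.sub_mem (h𝔤.bracket X hX Y hY) (hLG hA)
    exact ⟨A, hA, h2, hdet _ h2 fun j => by rw [sub_mul, h1, sub_self]⟩
  have hLT : L ≤ TVm (sumRep ρ) := fun X hX m φ hφ => ((hL X).1 hX).2 m φ hφ
  have hder1 : ∀ Y ∈ der1 𝔤, ∃ Z ∈ 𝔤, (∀ X ∈ 𝔤, X * Z = Z * X) ∧ Y - Z ∈ L := by
    intro Y hY
    unfold der1 at hY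
    induction hY using Submodule.span_induction with
    | mem Y hY =>
      obtain ⟨A, hA, B, hB, rfl⟩ := hY
      obtain ⟨C, hC, h1, h2⟩ := hbr A hA B hB
      exact ⟨_, h1, h2, by rwa [sub_sub_cancel]⟩
    | zero => exact ⟨0, 𝔤.zero_mem, fun X _ => by rw [mul_zero, zero_mul], by
        rw [sub_zero]
        exact L.zero_mem⟩
    | add X Y _ _ hX hY =>
      obtain ⟨Z, hZ, hZc, h1⟩ := hX
      obtain ⟨Z', hZ', hZc', h1'⟩ := hY
      refine ⟨Z + Z', 𝔤.add_mem hZ hZ', fun A hA => by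
        rw [mul_add, add_mul, hZc A hA, hZc' A hA], ?_⟩
      rw [add_sub_add_comm]
      exact L.add_mem h1 h1'
    | smul c X _ hX =>
      obtain ⟨Z, hZ, hZc, h1⟩ := hX
      refine ⟨c • Z, 𝔤.smul_mem c hZ, fun A hA => by
        rw [mul_smul_comm, smul_mul_assoc, hZc A hA], ?_⟩
      rw [← smul_sub]
      exact L.smul_mem c h1
  intro m φ hφ X hX
  rcases hab with hcen | hab
  · -- the centre consists of weights
    have hW := weight_mem ρ hγ hL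
    have hder : ∀ X ∈ 𝔤, ∀ Y ∈ 𝔤, X * Y - Y * X ∈ L := by
      intro X hX Y hY
      obtain ⟨A, hA, h1, h2⟩ := hbr X hX Y hY
      obtain ⟨c, hc⟩ := hcen _ h1 h2
      have h3 : X * Y - Y * X = A + c • weightOp (fun i => Fin (n i) → ℚ_[ℓ]) w := by
        rw [← hc]
        abel
      rw [h3]
      exact L.add_mem hA (L.smul_mem c hW)
    have hle : 𝔤 ≤ L := by
      by_contra hcon
      obtain ⟨C, hC, hC0, hCL⟩ := exists_perp hLG hcon
      have h1 : ∀ Y ∈ 𝔤, Y * C = C * Y := by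
        intro Y hY
        have h2 := h𝔤.nondeg _ (h𝔤.bracket C hC Y hY) fun Z hZ => by
          rw [trace_bracket]
          exact hCL _ (hder Y hY Z hZ)
        exact (sub_eq_zero.1 h2).symm
      obtain ⟨c, hc⟩ := hcen C hC h1
      have h2 := hCL _ hW
      rw [hc, smul_mul_assoc, map_smul, smul_eq_mul] at h2
      rcases mul_eq_zero.1 h2 with h3 | h3
      · exact hC0 (by rw [hc, h3, zero_smul])
      · exact hC0 (by rw [hc, weight_eq_zero h3, smul_zero])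
    exact ((hL X).1 (hle hX)).2 m φ hφ
  · -- the abelian part is in the image
    have hT := tv_lie (sumRep ρ)
    have hder : der1 𝔤 ≤ TVm (sumRep ρ) := der_le hT fun A hA => by
      obtain ⟨Y, hY, hAY⟩ := hab A hA
      have h1 : A - Y ∈ TVm (sumRep ρ) := fun m φ hφ =>
        TV_kills (finBasis ℚ_[ℓ] (∀ i, Fin (n i) → ℚ_[ℓ])) (sumRep ρ)
          (TV_of_tgt ρ _ (h𝔤.parts _ (𝔤.sub_mem hA (der1_le h𝔤.bracket hY))) hAY) φ hφ
      obtain ⟨Z, hZ, hZc, hYZ⟩ := hder1 Y hY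
      refine ⟨Z, hZ, hZc, ?_⟩
      have h2 := (TVm (sumRep ρ)).add_mem h1 (hLT hYZ)
      rwa [sub_add_sub_cancel] at h2
    obtain ⟨Y, hY, hXY⟩ := hab X hX
    have h1 : X - Y ∈ TVm (sumRep ρ) := fun m φ hφ =>
      TV_kills (finBasis ℚ_[ℓ] (∀ i, Fin (n i) → ℚ_[ℓ])) (sumRep ρ)
        (TV_of_tgt ρ _ (h𝔤.parts _ (𝔤.sub_mem hX (der1_le h𝔤.bracket hY))) hXY) φ hφ
    have h2 := (TVm (sumRep ρ)).add_mem h1 (hder hY)
    rw [sub_add_cancel] at h2
    exact h2 m φ hφ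

end main

end Pool.Agent.H943.MO
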